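import Pool.Agent.H61.ZP.Low
import Pool.Agent.H36.TZ.Ex
import Pool.Agent.H36.TZ.Cur
import Pool.Agent.H32.TZ.EngA

/-!
# [H61 ZP Main] THEOREM Z (MP_e49dc9_ag), case `T(p,p,.) = 0`

`D n = C A + n p + (bounded)` is ample; `h0 (D n) ≥ T(D n,D n,D n) / 6 + n l(p) - const`, `vol (D n) = T(D n,D n,D n) / 6` is at most linear.
`z_zero`: the engine, (S) implies (b) (`pen_t`) and (F) implies (c) (`cur_of0`).
-/

set_option autoImplicit false

namespace Pool.Agent.H61.ZP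

open Pool.Agent.H54.RV Pool.Agent.H83.TU Pool.Agent.H83.TK Pool.Agent.H24.VP Pool.Agent.H39.TQ Pool.Agent.H36.TZ
  Pool.Agent.H89.ZN Pool.Agent.H32.TZ Filter

variable {k K : Type} [Field k] [Field K] [Algebra k K] {X : Mod k K}
  {T : Cart X → Cart X → Cart X → ℝ} {l : Cart X → ℝ} {c : ℝ} {r : ℕ} {G : Fin r → Cart X} {p : Fin r → ℝ} {A : Cart X}

/-- small volume from the lower bound -/
private theorem smV_of (h : Hyp X) (hr : RR T l c) (hA : Ample A) {E : Cart X} (hE : Ample E) {th : ℝ}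
    (h1 : (1 + th) * (T E E E / 6) < h0 E 1) (hth : 0 < th) : SmV (1 + th) E := by
  have ht := hr.tri
  obtain ⟨δ, hδ⟩ : ∃ δ : ℝ, δ = h0 E 1 - (1 + th) * (T E E E / 6) := ⟨_, rfl⟩
  have hδ0 : 0 < δ := by rw [hδ]; linarith
  obtain ⟨R, hR⟩ : ∃ R : ℝ, R = (1 + th) * ((3 * |T E E A| + 3 * |T E A A| + |T A A A|) / 6) := ⟨_, rfl⟩
  obtain ⟨q, hq⟩ := exists_nat_gt (max 1 (R / δ))
  have hq1 : (1 : ℝ) < q := lt_of_le_of_lt (le_max_left _ _) hq
  have hq2 : R < q * δ := by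
    have := lt_of_le_of_lt (le_max_right _ _) hq
    rwa [div_lt_iff₀ hδ0] at this
  have hqn : 1 ≤ q := by exact_mod_cast hq1.le
  refine ⟨q, A, hqn, hA, ?_⟩
  rw [vol_eq hr (ample_mul h.var _ _ (ample_pow E q hqn hE) hA)]
  have e1 : T (E ^ q * A) (E ^ q * A) (E ^ q * A) =
      (q : ℝ) ^ 3 * T E E E + 3 * (q : ℝ) ^ 2 * T E E A + 3 * q * T E A A + T A A A := by
    simp only [ht.add, ht.add2, ht.add3, ht.pow, ht.pow2, ht.pow3]
    rw [ht.s12 A E A, ht.s12 A E E, ht.s23 E A E, ht.s23 A A E, ht.s12 A E A]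
    ring
  rw [e1]
  have a1 := le_abs_self (T E E A)
  have a2 := le_abs_self (T E A A)
  have a3 := le_abs_self (T A A A)
  have b1 : 3 * (q : ℝ) ^ 2 * T E E A + 3 * q * T E A A + T A A A ≤
      (q : ℝ) ^ 2 * (3 * |T E E A| + 3 * |T E A A| + |T A A A|) := by
    have c1 : (q : ℝ) ^ 2 * T E E A ≤ (q : ℝ) ^ 2 * |T E E A| := mul_le_mul_of_nonneg_left a1 (by positivity)
    have c2 : (q : ℝ) * T E A A ≤ (q : ℝ) ^ 2 * |T E A A| := by
      have d1 : (q : ℝ) * T E A A ≤ q * |T E A A| := mul_le_mul_of_nonneg_left a2 (by positivity)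
      have d2 : (q : ℝ) * |T E A A| ≤ (q : ℝ) ^ 2 * |T E A A| := by
        refine mul_le_mul_of_nonneg_right ?_ (abs_nonneg _)
        nlinarith
      linarith
    have c3 : T A A A ≤ (q : ℝ) ^ 2 * |T A A A| := by
      have d2 : (1 : ℝ) * |T A A A| ≤ (q : ℝ) ^ 2 * |T A A A| := by
        refine mul_le_mul_of_nonneg_right ?_ (abs_nonneg _)
        nlinarith
      linarith
    nlinarith
  have b2 : (1 + th) * ((q : ℝ) ^ 2 * (3 * |T E E A| + 3 * |T E A A| + |T A A A|) / 6) = (q : ℝ) ^ 2 * R := by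
    rw [hR]
    ring
  have b3 : (q : ℝ) ^ 2 * R < (q : ℝ) ^ 2 * (q * δ) := mul_lt_mul_of_pos_left hq2 (by positivity)
  have b4 : (1 + th) * ((3 * (q : ℝ) ^ 2 * T E E A + 3 * q * T E A A + T A A A) / 6) ≤
      (1 + th) * ((q : ℝ) ^ 2 * (3 * |T E E A| + 3 * |T E A A| + |T A A A|) / 6) :=
    mul_le_mul_of_nonneg_left (by linarith) (by linarith)
  have b5 : (q : ℝ) ^ 3 * h0 E 1 = (q : ℝ) ^ 2 * (q * δ) + (1 + th) * ((q : ℝ) ^ 3 * T E E E / 6) := by
    rw [hδ]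
    ring
  rw [b5]
  have b6 : (1 + th) * (((q : ℝ) ^ 3 * T E E E + 3 * (q : ℝ) ^ 2 * T E E A + 3 * q * T E A A + T A A A) / 6) =
      (1 + th) * ((3 * (q : ℝ) ^ 2 * T E E A + 3 * q * T E A A + T A A A) / 6) + (1 + th) * ((q : ℝ) ^ 3 * T E E E / 6) := by
    ring
  rw [b6]
  linarith

/-- **THEOREM Z in the case `T(p,p,.) = 0`** -/
theorem z_zero [IsAlgClosed k] [CharZero k] [T0Space X.P] (h : Hyp X) {ρ : ℕ}
    (ν : Cart X →* Multiplicative (Fin ρ → ℤ)) (hν : ∀ D, ν D = 1 → NumZ D) (hp : Pnt T l c A G p)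
    (hpz : pz T G p A = 0) : Pen T G p ∨ Cur h.var h.gen G p := by
  classical
  have hr := hp.hr
  have ht := hr.tri
  have hA := hp.rn.hA
  have hz := pz_all h hr hp.rn hpz
  obtain ⟨lp, hlp⟩ : ∃ lp, lp = dl l G p := ⟨_, rfl⟩
  have hlp0 : 0 < lp := by rw [hlp]; exact hp.lp
  obtain ⟨C₀, hC₀⟩ := Rn.more h.var hp.rn
  obtain ⟨C₁, hC₁⟩ := low_p h hr hp.rn hz
  obtain ⟨C, hC⟩ : ∃ C, C = max C₀ C₁ := ⟨_, rfl⟩
  have hCC₀ : C₀ ≤ C := by rw [hC]; exact le_max_left _ _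
  have hCC₁ : C₁ ≤ C := by rw [hC]; exact le_max_right _ _
  choose m hm using fun n : ℕ => exists_m p n
  obtain ⟨D, hD⟩ : ∃ D : ℕ → Cart X, D = fun n => A ^ C * ∏ i, G i ^ m n i := ⟨_, rfl⟩
  have hDn : ∀ n, D n = A ^ C * ∏ i, G i ^ m n i := fun n => by rw [hD]
  have hDa : ∀ n, Ample (D n) := fun n => by
    rw [hDn]
    exact hC₀ C hCC₀ n (m n) (hm n)
  have hDr : ∀ n, Nr A G p C (D n) n := fun n =>
    ⟨Nat.cast_nonneg n, m n, hDn n, fun i => (hm n i).trans (by norm_num)⟩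
  obtain ⟨E, hE⟩ : ∃ E : ℕ → Cart X, E = fun n => D n * D (n + 1) := ⟨_, rfl⟩
  have hEn : ∀ n, D n * D (n + 1) = E n := fun n => by rw [hE]
  have hEa : ∀ n, Ample (E n) := fun n => by
    rw [← hEn]
    exact ample_mul h.var _ _ (hDa n) (hDa (n + 1))
  have hEr : ∀ n, Nr A G p (C + C) (E n) (2 * n + 1) := fun n => by
    refine ⟨by positivity, fun i => m n i + m (n + 1) i, ?_, fun i => ?_⟩
    · rw [← hEn, hDn, hDn, pow_add, mul_mul_mul_comm, ← Finset.prod_mul_distrib]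
      congr 1
      exact Finset.prod_congr rfl fun i _ => (zpow_add _ _ _).symm
    · have h1 := hm n i
      have h2 := hm (n + 1) i
      rw [abs_le] at h1 h2 ⊢
      push_cast at h2 ⊢
      constructor <;> linarith [h1.1, h1.2, h2.1, h2.2]
  obtain ⟨K₁, hK₁⟩ := hC₁ C hCC₁ D (fun n => n) hDr hDa
  obtain ⟨K₂, hK₂⟩ := hC₁ (C + C) (by omega) E (fun n => 2 * n + 1) hEr hEa
  obtain ⟨L₁, hL₁, hl1⟩ := dl_bd (A := A) (G := G) (p := p) hr.ladd C
  obtain ⟨L₂, hL₂, hl2⟩ := dl_bd (A := A) (G := G) (p := p) hr.ladd (C + C)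
  obtain ⟨Q₁, hQ₁⟩ : ∃ Q₁, Q₁ = L₁ + |c| + |K₁| := ⟨_, rfl⟩
  obtain ⟨Q₂, hQ₂⟩ : ∃ Q₂, Q₂ = L₂ + |c| + |K₂| := ⟨_, rfl⟩
  have hD1 : ∀ n : ℕ, T (D n) (D n) (D n) / 6 + n * lp - Q₁ ≤ h0 (D n) 1 := fun n => by
    have h1 := hK₁ n
    unfold chi at h1
    have h2 := (abs_le.1 (hl1 (D n) n (hDr n))).1
    rw [← hlp] at h2
    have h3 := neg_abs_le c
    have h4 := le_abs_self K₁
    rw [hQ₁]
    linarith
  have hE1 : ∀ n : ℕ, T (E n) (E n) (E n) / 6 + (2 * n + 1) * lp - Q₂ ≤ h0 (E n) 1 := fun n => by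
    have h1 := hK₂ n
    unfold chi at h1
    have h2 := (abs_le.1 (hl2 (E n) (2 * n + 1) (hEr n))).1
    rw [← hlp] at h2
    have h3 := neg_abs_le c
    have h4 := le_abs_self K₂
    rw [hQ₂]
    linarith
  have hD3 : ∀ n : ℕ, 0 < T (D n) (D n) (D n) := fun n => pos_amp h hr (hDa n) (hDa n) (hDa n)
  have hE3 : ∀ n : ℕ, 0 < T (E n) (E n) (E n) := fun n => pos_amp h hr (hEa n) (hEa n) (hEa n)
  have hD2 : ∀ n : ℕ, n * lp - Q₁ ≤ h0 (D n) 1 := fun n => by linarith [hD1 n, hD3 n]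
  have hE2 : ∀ n : ℕ, (2 * n + 1) * lp - Q₂ ≤ h0 (E n) 1 := fun n => by linarith [hE1 n, hE3 n]
  -- the number of sections tends to infinity
  have htend : Tendsto (fun n => h0 (D n) 1) atTop atTop := by
    rw [tendsto_atTop]
    intro b
    obtain ⟨N, hN⟩ := exists_nat_gt ((b + Q₁) / lp)
    rw [div_lt_iff₀ hlp0] at hN
    filter_upwards [eventually_ge_atTop N] with n hn
    have hn' : (N : ℝ) ≤ n := by exact_mod_cast hn
    have h1 := hD2 n
    have h2 : (N : ℝ) * lp ≤ n * lp := mul_le_mul_of_nonneg_right hn' hlp0.le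
    have h3 : (b : ℝ) ≤ h0 (D n) 1 := by linarith
    exact_mod_cast h3
  -- the volume
  obtain ⟨K₃, hK₃, h3⟩ := T_bd3 (A := A) (T := T) ht hz (C + C) (C + C) (C + C)
  obtain ⟨th, hth⟩ : ∃ th, th = lp / (4 * K₃ + 1) := ⟨_, rfl⟩
  have hth0 : 0 < th := by rw [hth]; positivity
  have hthK : th * (4 * K₃) ≤ lp := by
    rw [hth, div_mul_eq_mul_div, div_le_iff₀ (by positivity)]
    nlinarith
  have hsm : ∀ᶠ n in atTop, SmV (1 + th) (D n * D (n + 1)) := by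
    obtain ⟨N, hN⟩ := exists_nat_gt (Q₂ / (lp / 2))
    rw [div_lt_iff₀ (by positivity)] at hN
    filter_upwards [eventually_ge_atTop N] with n hn
    have hn' : (N : ℝ) ≤ n := by exact_mod_cast hn
    rw [hEn]
    refine smV_of h hr hA (hEa n) ?_ hth0
    have h4 := le_of_abs_le (h3 (E n) _ (E n) _ (E n) _ (hEr n) (hEr n) (hEr n))
    obtain ⟨x, hx⟩ : ∃ x : ℝ, x = 2 * n + 1 := ⟨_, rfl⟩
    have hx1 : 1 ≤ x := by
      rw [hx]
      have : (0 : ℝ) ≤ n := Nat.cast_nonneg n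
      linarith
    have h5 := hE1 n
    rw [← hx] at h4 h5
    have h6 : T (E n) (E n) (E n) ≤ 4 * K₃ * x := by nlinarith
    have h7 : th * T (E n) (E n) (E n) ≤ th * (4 * K₃ * x) := mul_le_mul_of_nonneg_left h6 hth0.le
    have h8 : th * (4 * K₃) * x ≤ lp * x := mul_le_mul_of_nonneg_right hthK (by linarith)
    have h9 : (N : ℝ) * (lp / 2) ≤ n * (lp / 2) := mul_le_mul_of_nonneg_right hn' (by positivity)
    have h10 : (n : ℝ) * (lp / 2) ≤ x * (lp / 2) := by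
      refine mul_le_mul_of_nonneg_right ?_ (by positivity)
      rw [hx]
      have : (0 : ℝ) ≤ n := Nat.cast_nonneg n
      linarith
    have h11 : 0 < lp * x := by positivity
    nlinarith
  rcases engine_all h D th hth0 htend hsm with ⟨u, hu⟩ | ⟨F, hF, hcl, hM⟩
  · left
    obtain ⟨P₁, hP₁, hp1⟩ := pT_bd (A := A) (T := T) ht hz C A
    obtain ⟨P₂, hP₂, hp2⟩ := pT_bd (A := A) (T := T) ht hz (C + C) A
    obtain ⟨R₁, hR₁, hr1⟩ := T_bd (A := A) (G := G) (p := p) (T := T) ht C A A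
    obtain ⟨R₂, hR₂, hr2⟩ := T_bd (A := A) (G := G) (p := p) (T := T) ht (C + C) A A
    refine pen_t h hr ν hν hp.rn u (cc := lp / 2) (M := 2 * (R₁ + R₂)) (by positivity) fun ε x₀ hε => ?_
    obtain ⟨N, hN⟩ := exists_nat_gt (max (max x₀ 1) (max ((P₁ + P₂) / ε) ((|Q₁| + |Q₂|) / (lp / 2))))
    obtain ⟨n, hn, hmov⟩ := (frequently_atTop.1 hu) N
    have hn' : (N : ℝ) ≤ n := by exact_mod_cast hn
    have g1 : x₀ < n := lt_of_lt_of_le (lt_of_le_of_lt ((le_max_left _ _).trans (le_max_left _ _)) hN) hn'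
    have g2 : (1 : ℝ) < n := lt_of_lt_of_le (lt_of_le_of_lt ((le_max_right _ _).trans (le_max_left _ _)) hN) hn'
    have g3 : (P₁ + P₂) / ε < n := lt_of_lt_of_le (lt_of_le_of_lt ((le_max_left _ _).trans (le_max_right _ _)) hN) hn'
    have g4 : (|Q₁| + |Q₂|) / (lp / 2) < n := lt_of_lt_of_le (lt_of_le_of_lt ((le_max_right _ _).trans (le_max_right _ _)) hN) hn'
    rw [div_lt_iff₀ hε] at g3
    rw [div_lt_iff₀ (by positivity)] at g4
    have a1 := le_abs_self Q₁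
    have a2 := le_abs_self Q₂
    have a3 := abs_nonneg Q₁
    have a4 := abs_nonneg Q₂
    rcases hmov with hmov | hmov
    · refine ⟨D n, n, g1.le, hmov, ?_, ?_, ?_⟩
      · have := hD2 n
        nlinarith
      · have h4 := le_of_abs_le (hr1 (D n) n (hDr n))
        have e : T A A (D n) = T (D n) A A := by rw [ht.s23, ht.s12]
        rw [e]
        have : 0 ≤ R₂ * n := by positivity
        nlinarith
      · have h4 := le_of_abs_le (hp1 (D n) n (hDr n))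
        rw [pT_comm ht]
        nlinarith
    · rw [hEn] at hmov
      refine ⟨E n, 2 * n + 1, by linarith, hmov, ?_, ?_, ?_⟩
      · have := hE2 n
        nlinarith
      · have h4 := le_of_abs_le (hr2 (E n) _ (hEr n))
        have e : T A A (E n) = T (E n) A A := by rw [ht.s23, ht.s12]
        rw [e]
        have : 0 ≤ R₁ * (2 * n + 1) := by positivity
        nlinarith
      · have h4 := le_of_abs_le (hp2 (E n) _ (hEr n))
        rw [pT_comm ht]
        nlinarith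
  · right
    refine cur_of0 h hr hp.rn hz hF hcl (B := 1) zero_le_one C fun M => ?_
    obtain ⟨n, hn, hn1⟩ := ((hM M).and (eventually_ge_atTop 1)).exists
    refine ⟨m n, n, by exact_mod_cast hn1, hm n, ?_, ?_⟩
    · rw [← hDn]
      exact hDa n
    · rw [← hDn]
      exact hn

end Pool.Agent.H61.ZP
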