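import Pool.Agent.H89.ZN.Def
import Pool.Agent.H24.ZL.Num

/-!
# [H61 ZP Est] THEOREM Z (MP_e49dc9_ag), case `T(p,p,.) = 0`: estimates

`Nr A G p C W x`: `W = C A + x p + (bounded)`.  If `T(p,p,.) = 0` then `T(p,W,W')` is bounded and `T(W,W',W'')` is at most linear in `x`, `x'`, `x''`.
-/

set_option autoImplicit false

namespace Pool.Agent.H61.ZP

open Pool.Agent.H54.RV Pool.Agent.H83.TU Pool.Agent.H83.TK Pool.Agent.H24.VP Pool.Agent.H39.TQ Pool.Agent.H36.TZ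
  Pool.Agent.H89.ZN

variable {k K : Type} [Field k] [Field K] [Algebra k K] {X : Mod k K}
  {T : Cart X → Cart X → Cart X → ℝ} {l : Cart X → ℝ} {c : ℝ} {r : ℕ} {G : Fin r → Cart X} {p : Fin r → ℝ} {A : Cart X}

/-- `W = C A + x p + (bounded)` -/
def Nr (A : Cart X) (G : Fin r → Cart X) (p : Fin r → ℝ) (C : ℕ) (W : Cart X) (x : ℝ) : Prop :=
  0 ≤ x ∧ ∃ m : Fin r → ℤ, W = A ^ C * ∏ i, G i ^ m i ∧ ∀ i, |(m i : ℝ) - x * p i| ≤ 2

theorem add3_le {x y a b e K₁ K₂ K₃ : ℝ} (h1 : |a| ≤ K₁ * (y + 1)) (h2 : |b| ≤ K₂ * (y + 1)) (h3 : |e| ≤ K₃) (hx : 0 ≤ x)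
    (hy : 0 ≤ y) (hK₁ : 0 ≤ K₁) (hK₂ : 0 ≤ K₂) (hK₃ : 0 ≤ K₃) : |x * e + (a + b)| ≤ (K₁ + K₂ + K₃) * (x + y + 1) := by
  refine (abs_add_le _ _).trans ?_
  have h4 := abs_add_le a b
  have h5 : |x * e| ≤ x * K₃ := by
    rw [abs_mul, abs_of_nonneg hx]
    exact mul_le_mul_of_nonneg_left h3 hx
  have h6 : 0 ≤ K₁ * x := mul_nonneg hK₁ hx
  have h7 : 0 ≤ K₂ * x := mul_nonneg hK₂ hx
  have h8 : 0 ≤ K₃ * y := mul_nonneg hK₃ hy
  nlinarith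

/-- `T(p,W,V)` is bounded -/
theorem pT_bd (ht : Tri T) (hz : ∀ U, pz T G p U = 0) (C : ℕ) (V : Cart X) :
    ∃ K₁ : ℝ, 0 ≤ K₁ ∧ ∀ W x, Nr A G p C W x → |pT T G p W V| ≤ K₁ := by
  refine ⟨C * |pT T G p A V| + 2 * ∑ i, |pT T G p (G i) V|, by positivity, ?_⟩
  rintro W x ⟨hx, m, rfl, hm⟩
  rw [W_pT ht C m x, hz, mul_zero, zero_add]
  refine (abs_add_le _ _).trans (add_le_add ?_ (Pool.Agent.H24.ZL.sum_bd _ _ hm))
  rw [abs_mul, Nat.abs_cast]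

/-- `T(W,U,V)` is at most linear -/
theorem T_bd (ht : Tri T) (C : ℕ) (U V : Cart X) :
    ∃ K₁ : ℝ, 0 ≤ K₁ ∧ ∀ W x, Nr A G p C W x → |T W U V| ≤ K₁ * (x + 1) := by
  refine ⟨|pT T G p U V| + (C * |T A U V| + 2 * ∑ i, |T (G i) U V|), by positivity, ?_⟩
  rintro W x ⟨hx, m, rfl, hm⟩
  rw [W_T (p := p) ht C m x]
  obtain ⟨K₂, hK₂⟩ : ∃ K₂, K₂ = C * |T A U V| + 2 * ∑ i, |T (G i) U V| := ⟨_, rfl⟩
  have h0 : 0 ≤ K₂ := by rw [hK₂]; positivity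
  have h1 : |(C : ℝ) * T A U V + ∑ i, ((m i : ℝ) - x * p i) * T (G i) U V| ≤ K₂ := by
    rw [hK₂]
    refine (abs_add_le _ _).trans (add_le_add ?_ (Pool.Agent.H24.ZL.sum_bd _ _ hm))
    rw [abs_mul, Nat.abs_cast]
  rw [← hK₂]
  refine (abs_add_le _ _).trans ?_
  rw [abs_mul, abs_of_nonneg hx]
  have h2 := abs_nonneg (pT T G p U V)
  have h3 : 0 ≤ K₂ * x := mul_nonneg h0 hx
  nlinarith

/-- `T(p,W,W')` is bounded -/
theorem pT_bd2 (ht : Tri T) (hz : ∀ U, pz T G p U = 0) (C C' : ℕ) :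
    ∃ K₁ : ℝ, 0 ≤ K₁ ∧ ∀ W x W' x', Nr A G p C W x → Nr A G p C' W' x' → |pT T G p W W'| ≤ K₁ := by
  classical
  obtain ⟨K₀, hK₀, h0⟩ := pT_bd (A := A) (T := T) ht hz C' A
  have h1 := fun i => pT_bd (A := A) (T := T) ht hz C' (G i)
  choose K₁ hK₁ h1 using h1
  refine ⟨C * K₀ + 2 * ∑ i, K₁ i, add_nonneg (by positivity) (mul_nonneg zero_le_two (Finset.sum_nonneg fun i _ => hK₁ i)), ?_⟩
  rintro W x W' x' ⟨hx, m, rfl, hm⟩ hW'
  rw [W_pT ht C m x, hz, mul_zero, zero_add]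
  refine (abs_add_le _ _).trans (add_le_add ?_ ((Pool.Agent.H24.ZL.sum_bd _ _ hm).trans ?_))
  · rw [abs_mul, Nat.abs_cast, pT_comm ht]
    exact mul_le_mul_of_nonneg_left (h0 W' x' hW') (Nat.cast_nonneg _)
  · refine mul_le_mul_of_nonneg_left (Finset.sum_le_sum fun i _ => ?_) zero_le_two
    rw [pT_comm ht]
    exact h1 i W' x' hW'

/-- `T(W,W',V)` is at most linear -/
theorem T_bd2 (ht : Tri T) (hz : ∀ U, pz T G p U = 0) (C C' : ℕ) (V : Cart X) :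
    ∃ K₁ : ℝ, 0 ≤ K₁ ∧ ∀ W x W' x', Nr A G p C W x → Nr A G p C' W' x' → |T W W' V| ≤ K₁ * (x + x' + 1) := by
  classical
  obtain ⟨K₀, hK₀, h0⟩ := pT_bd (A := A) (T := T) ht hz C' V
  obtain ⟨K₁, hK₁, h1⟩ := T_bd (A := A) (G := G) (p := p) (T := T) ht C' A V
  have h2 := fun i => T_bd (A := A) (G := G) (p := p) (T := T) ht C' (G i) V
  choose K₂ hK₂ h2 using h2
  have hs : 0 ≤ ∑ i, K₂ i := Finset.sum_nonneg fun i _ => hK₂ i
  refine ⟨C * K₁ + 2 * ∑ i, K₂ i + K₀, by positivity, ?_⟩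
  rintro W x W' x' ⟨hx, m, rfl, hm⟩ hW'
  rw [W_T (p := p) ht C m x]
  refine add3_le ?_ ?_ (h0 W' x' hW') hx hW'.1 (by positivity) (by positivity) hK₀
  · rw [abs_mul, Nat.abs_cast, ht.s12, mul_assoc]
    exact mul_le_mul_of_nonneg_left (h1 W' x' hW') (Nat.cast_nonneg _)
  · refine (Pool.Agent.H24.ZL.sum_bd _ _ hm).trans ?_
    rw [mul_assoc, Finset.sum_mul]
    refine mul_le_mul_of_nonneg_left (Finset.sum_le_sum fun i _ => ?_) zero_le_two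
    rw [ht.s12]
    exact h2 i W' x' hW'

/-- `T(W,W',W'')` is at most linear -/
theorem T_bd3 (ht : Tri T) (hz : ∀ U, pz T G p U = 0) (C C' C'' : ℕ) :
    ∃ K₁ : ℝ, 0 ≤ K₁ ∧ ∀ W x W' x' W'' x'', Nr A G p C W x → Nr A G p C' W' x' → Nr A G p C'' W'' x'' →
      |T W W' W''| ≤ K₁ * (x + (x' + x'') + 1) := by
  classical
  obtain ⟨K₀, hK₀, h0⟩ := pT_bd2 (A := A) (T := T) ht hz C' C''
  obtain ⟨K₁, hK₁, h1⟩ := T_bd2 (A := A) (T := T) ht hz C' C'' A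
  have h2 := fun i => T_bd2 (A := A) (T := T) ht hz C' C'' (G i)
  choose K₂ hK₂ h2 using h2
  have hs : 0 ≤ ∑ i, K₂ i := Finset.sum_nonneg fun i _ => hK₂ i
  refine ⟨C * K₁ + 2 * ∑ i, K₂ i + K₀, by positivity, ?_⟩
  rintro W x W' x' W'' x'' ⟨hx, m, rfl, hm⟩ hW' hW''
  have e : ∀ V, T V W' W'' = T W' W'' V := fun V => by rw [ht.s12, ht.s23]
  rw [W_T (p := p) ht C m x]
  refine add3_le ?_ ?_ (h0 W' x' W'' x'' hW' hW'') hx (add_nonneg hW'.1 hW''.1) (by positivity) (by positivity) hK₀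
  · rw [abs_mul, Nat.abs_cast, mul_assoc, e]
    exact mul_le_mul_of_nonneg_left (h1 W' x' W'' x'' hW' hW'') (Nat.cast_nonneg _)
  · refine (Pool.Agent.H24.ZL.sum_bd _ _ hm).trans ?_
    rw [mul_assoc, Finset.sum_mul]
    refine mul_le_mul_of_nonneg_left (Finset.sum_le_sum fun i _ => ?_) zero_le_two
    rw [e]
    exact h2 i W' x' W'' x'' hW' hW''

/-- an additive function `δ` at `W`: `δ(W) = x δ(p) + (bounded)` -/
theorem dl_bd {δ : Cart X → ℝ} (hδ : ∀ U V, δ (U * V) = δ U + δ V) (C : ℕ) :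
    ∃ K₁ : ℝ, 0 ≤ K₁ ∧ ∀ W x, Nr A G p C W x → |δ W - x * dl δ G p| ≤ K₁ := by
  classical
  obtain ⟨f, hf⟩ : ∃ f : Cart X →* Multiplicative ℝ, ∀ U, (f U).toAdd = δ U :=
    ⟨MonoidHom.mk' (fun U => Multiplicative.ofAdd (δ U)) fun U V => by
      rw [hδ, ofAdd_add], fun U => rfl⟩
  have hpow : ∀ (U : Cart X) (n : ℕ), δ (U ^ n) = n * δ U := fun U n => by
    rw [← hf, map_pow, toAdd_pow, hf, nsmul_eq_mul]
  have hzpow : ∀ (U : Cart X) (n : ℤ), δ (U ^ n) = n * δ U := fun U n => by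
    rw [← hf, map_zpow, toAdd_zpow, hf, zsmul_eq_mul]
  have hprod : ∀ g : Fin r → Cart X, δ (∏ i, g i) = ∑ i, δ (g i) := fun g => by
    rw [← hf, map_prod, toAdd_prod]
    exact Finset.sum_congr rfl fun i _ => hf _
  refine ⟨C * |δ A| + 2 * ∑ i, |δ (G i)|, by positivity, ?_⟩
  rintro W x ⟨hx, m, rfl, hm⟩
  have e : δ (A ^ C * ∏ i, G i ^ m i) - x * dl δ G p = C * δ A + ∑ i, ((m i : ℝ) - x * p i) * δ (G i) := by
    rw [hδ, hpow, hprod]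
    simp only [hzpow]
    unfold dl
    rw [Finset.mul_sum]
    have e : ∑ i, ((m i : ℝ) - x * p i) * δ (G i) = ∑ i, (m i : ℝ) * δ (G i) - ∑ i, x * (p i * δ (G i)) := by
      rw [← Finset.sum_sub_distrib]
      exact Finset.sum_congr rfl fun i _ => by ring
    rw [e]
    ring
  rw [e]
  refine (abs_add_le _ _).trans (add_le_add ?_ (Pool.Agent.H24.ZL.sum_bd _ _ hm))
  rw [abs_mul, Nat.abs_cast]

/-- `T(p,p,A) = 0` gives `T(p,p,U) = 0` for all `U` -/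
theorem pz_all [CharZero k] [T0Space X.P] (h : Hyp X) (hr : RR T l c) (hp : Rn G p A) (h0 : pz T G p A = 0) (U : Cart X) :
    pz T G p U = 0 := by
  have ht := hr.tri
  have key : ∀ B : Cart X, Ample B → pz T G p B = 0 := by
    intro B hB
    refine le_antisymm ?_ (pz_amp h hr hp hB)
    obtain ⟨n, hn⟩ := exists_amp h.var hp.hA B⁻¹
    have h1 := pz_amp h hr hp (hn n le_rfl)
    rw [pz_mul ht, pz_pow ht, ← zpow_neg_one, pz_zpow ht, h0] at h1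
    push_cast at h1
    linarith
  obtain ⟨n, hn⟩ := exists_amp h.var hp.hA U
  have h1 := key _ (hn n le_rfl)
  rw [pz_mul ht, pz_pow ht, h0, mul_zero, zero_add] at h1
  exact h1

/-- `T(p,A,A) = 0` gives `T(p,U,A) = 0` for all `U` -/
theorem pTA_zero [CharZero k] [T0Space X.P] (h : Hyp X) (hr : RR T l c) (hp : Rn G p A) (h0 : pT T G p A A = 0)
    (U : Cart X) : pT T G p U A = 0 := by
  have ht := hr.tri
  have key : ∀ B : Cart X, Ample B → pT T G p B A = 0 := by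
    intro B hB
    refine le_antisymm ?_ (pT_amp h hr hp hB hp.hA)
    obtain ⟨n, hn⟩ := exists_amp h.var hp.hA B⁻¹
    have h1 := pT_amp h hr hp (hn n le_rfl) hp.hA
    rw [pT_mul ht, pT_pow ht, ← zpow_neg_one, pT_zpow ht, h0] at h1
    push_cast at h1
    linarith
  obtain ⟨n, hn⟩ := exists_amp h.var hp.hA U
  have h1 := key _ (hn n le_rfl)
  rw [pT_mul ht, pT_pow ht, h0, mul_zero, zero_add] at h1
  exact h1

end Pool.Agent.H61.ZP
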