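import Pool.Agent.H61.ZP.Est
import Pool.Agent.H24.VP.Low
import Pool.Agent.H24.VP.Exi

/-!
# [H61 ZP Low] THEOREM Z (MP_e49dc9_ag), case `T(p,p,.) = 0`: the number of sections of `C A + x p` from below

For `C` large all `x ≥ 0` are allowed (`n₀ = 0` in `low_of`).  Let `H = A ^ m₀`, `W = C A + x p + (bounded)`:
`chS (W H⁻¹) = T(W,W,H) / 2 - 3 T(W,H,H) / 2 + const ≥ (m₀ / 2) (x (C β - 4 B₁) + x (C - 3 m₀) β + (C - 3 m₀) (C a - 2 B₀) - 2 C B₀ - 4 B₂) + const` with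
`β = T(p,A,A)`, `a = T(A,A,A)`.
-/

set_option autoImplicit false

namespace Pool.Agent.H61.ZP

open Pool.Agent.H54.RV Pool.Agent.H83.TU Pool.Agent.H83.TK Pool.Agent.H24.VP Pool.Agent.H39.TQ Pool.Agent.H36.TZ
  Pool.Agent.H89.ZN

variable {k K : Type} [Field k] [Field K] [Algebra k K] {X : Mod k K}
  {T : Cart X → Cart X → Cart X → ℝ} {l : Cart X → ℝ} {c : ℝ} {r : ℕ} {G : Fin r → Cart X} {p : Fin r → ℝ} {A : Cart X}

private theorem W_lo (ht : Tri T) {B₀ : ℝ} (hB₀ : B₀ = ∑ i, |T (G i) A A|) {C : ℕ} {W : Cart X} {x : ℝ}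
    (hW : Nr A G p C W x) : x * pT T G p A A + C * T A A A - 2 * B₀ ≤ T W A A := by
  obtain ⟨hx, m, rfl, hm⟩ := hW
  rw [W_T (p := p) ht C m x, hB₀]
  have := (abs_le.1 (Pool.Agent.H24.ZL.sum_bd _ (fun i => T (G i) A A) hm)).1
  linarith

private theorem WW_lo (ht : Tri T) (hz : ∀ U, pz T G p U = 0) {B₀ B₁ B₂ : ℝ} (hB₀ : B₀ = ∑ i, |T (G i) A A|)
    (hB₁ : B₁ = ∑ i, |pT T G p (G i) A|) (hB₂ : B₂ = ∑ i, ∑ j, |T (G j) (G i) A|) {C : ℕ} {W : Cart X} {x : ℝ}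
    (hW : Nr A G p C W x) :
    x * (C * pT T G p A A - 4 * B₁) + C * T W A A - 2 * C * B₀ - 4 * B₂ ≤ T W W A := by
  have hW2 := hW
  obtain ⟨hx, m, hWm, hm⟩ := hW
  have e1 : T W W A = x * pT T G p W A + (C * T A W A + ∑ i, ((m i : ℝ) - x * p i) * T (G i) W A) := by
    have := W_T (p := p) (A := A) (G := G) ht C m x W A
    rwa [← hWm] at this
  have e2 : C * pT T G p A A - 2 * B₁ ≤ pT T G p W A := by
    rw [hWm, W_pT ht C m x, hz, mul_zero, zero_add, hB₁]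
    have := (abs_le.1 (Pool.Agent.H24.ZL.sum_bd _ (fun i => pT T G p (G i) A) hm)).1
    linarith
  have e3 : ∑ i, |T (G i) W A| ≤ x * B₁ + C * B₀ + 2 * B₂ := by
    have h1 : ∀ i, |T (G i) W A| ≤ x * |pT T G p (G i) A| + C * |T (G i) A A| + 2 * ∑ j, |T (G j) (G i) A| := by
      intro i
      rw [ht.s12, hWm, W_T (p := p) ht C m x]
      have h2 := Pool.Agent.H24.ZL.sum_bd _ (fun j => T (G j) (G i) A) hm
      have h3 := abs_add_le (x * pT T G p (G i) A) (C * T A (G i) A + ∑ j, ((m j : ℝ) - x * p j) * T (G j) (G i) A)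
      have h4 := abs_add_le (C * T A (G i) A) (∑ j, ((m j : ℝ) - x * p j) * T (G j) (G i) A)
      rw [abs_mul, abs_of_nonneg hx] at h3
      rw [abs_mul, Nat.abs_cast, ht.s12 A] at h4
      rw [ht.s12 A] at h3 ⊢
      linarith
    refine (Finset.sum_le_sum fun i _ => h1 i).trans (le_of_eq ?_)
    rw [Finset.sum_add_distrib, Finset.sum_add_distrib, ← Finset.mul_sum, ← Finset.mul_sum, ← Finset.mul_sum, ← hB₀, ← hB₁,
      ← hB₂]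
  have e4 := (abs_le.1 (Pool.Agent.H24.ZL.sum_bd _ (fun i => T (G i) W A) hm)).1
  have e5 : x * (C * pT T G p A A - 2 * B₁) ≤ x * pT T G p W A := mul_le_mul_of_nonneg_left e2 hx
  rw [e1, ht.s12 A]
  nlinarith

/-- the lower bound -/
theorem low_p [CharZero k] [T0Space X.P] (h : Hyp X) (hr : RR T l c) (hp : Rn G p A) (hz : ∀ U, pz T G p U = 0) :
    ∃ C₁ : ℕ, ∀ C ≥ C₁, ∀ (W : ℕ → Cart X) (x : ℕ → ℝ), (∀ n, Nr A G p C (W n) (x n)) → (∀ n, Ample (W n)) →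
      ∃ K₁ : ℝ, ∀ n, chi T l c (W n) - K₁ ≤ h0 (W n) 1 := by
  classical
  have ht := hr.tri
  have hA := hp.hA
  obtain ⟨m₀, k', L, i1, i2, i3, S, ψ, hm₀, hS⟩ := exists_sf h hA
  have hi : ∀ A B C, ∃ z : ℤ, T A B C = z := t_int hr h.amp
  obtain ⟨B₀, hB₀⟩ : ∃ B₀, B₀ = ∑ i, |T (G i) A A| := ⟨_, rfl⟩
  obtain ⟨B₁, hB₁⟩ : ∃ B₁, B₁ = ∑ i, |pT T G p (G i) A| := ⟨_, rfl⟩
  obtain ⟨B₂, hB₂⟩ : ∃ B₂, B₂ = ∑ i, ∑ j, |T (G j) (G i) A| := ⟨_, rfl⟩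
  obtain ⟨β, hβ⟩ : ∃ β, β = pT T G p A A := ⟨_, rfl⟩
  obtain ⟨a, ha⟩ : ∃ a, a = T A A A := ⟨_, rfl⟩
  have ha0 : 0 < a := by rw [ha]; exact pos_amp h hr hA hA hA
  have hβ0 : 0 ≤ β := by rw [hβ]; exact pT_amp h hr hp hA hA
  have hm1 : (1 : ℝ) ≤ m₀ := by exact_mod_cast hm₀
  obtain ⟨N₁, hN₁⟩ : ∃ N₁ : ℝ, ∀ y ≥ N₁, 4 * B₁ ≤ y * β := by
    rcases hβ0.eq_or_lt with h1 | h1
    · refine ⟨0, fun y _ => ?_⟩
      rw [← h1, mul_zero, hB₁]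
      have h2 : ∀ i, |pT T G p (G i) A| = 0 := fun i => by
        rw [pTA_zero h hr hp (by rw [← hβ, ← h1]) (G i), abs_zero]
      rw [Finset.sum_congr rfl fun i _ => h2 i, Finset.sum_const_zero, mul_zero]
    · refine ⟨4 * B₁ / β, fun y hy => ?_⟩
      rwa [ge_iff_le, div_le_iff₀ h1] at hy
  obtain ⟨N₂, hN₂⟩ := Pool.Agent.H24.ZL.quad_ev ha0 (3 * m₀ * a + 4 * B₀)
    (4 * B₂ - 6 * m₀ * B₀ - 2 / m₀ * (7 / 6 * (m₀ : ℝ) ^ 3 * a + m₀ * l A))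
  obtain ⟨C₁, hC₁⟩ := exists_nat_gt (max (3 * (m₀ : ℝ)) (max ((2 * B₀ + 2 * m₀ * a) / a) (max N₁ N₂)))
  refine ⟨C₁, fun C hC W x hW hamp => ?_⟩
  have hCC : (C₁ : ℝ) ≤ C := by exact_mod_cast hC
  have c1 : 3 * (m₀ : ℝ) < C := lt_of_lt_of_le (lt_of_le_of_lt (le_max_left _ _) hC₁) hCC
  have c2 : (2 * B₀ + 2 * m₀ * a) / a < C := lt_of_lt_of_le (lt_of_le_of_lt ((le_max_left _ _).trans (le_max_right _ _)) hC₁) hCC
  have c3 : N₁ < C := lt_of_lt_of_le (lt_of_le_of_lt ((le_max_left _ _).trans ((le_max_right _ _).trans (le_max_right _ _))) hC₁) hCC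
  have c4 : N₂ < C := lt_of_lt_of_le (lt_of_le_of_lt ((le_max_right _ _).trans ((le_max_right _ _).trans (le_max_right _ _))) hC₁) hCC
  rw [div_lt_iff₀ ha0] at c2
  have c3' := hN₁ C c3.le
  have c4' := hN₂ C c4.le
  obtain ⟨K₁, hK₁⟩ := low_of hr hS hi W (fun n => W n * (A ^ m₀)⁻¹) 0 fun n _ => by
    have w1 := W_lo ht hB₀ (hW n)
    have w2 := WW_lo ht hz hB₀ hB₁ hB₂ (hW n)
    have hx := (hW n).1
    rw [← hβ, ← ha] at w1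
    rw [← hβ] at w2
    have hH := hS.hH
    have e1 : T (W n) (A ^ m₀) (A ^ m₀) = (m₀ : ℝ) ^ 2 * T (W n) A A := by
      rw [ht.pow2, ht.pow3]
      ring
    have e2 : T (A ^ m₀) (A ^ m₀) (A ^ m₀) = (m₀ : ℝ) ^ 3 * a := by
      rw [ht.pow, ht.pow2, ht.pow3, ← ha]
      ring
    have e3 : T (W n * (A ^ m₀)⁻¹) (A ^ m₀) (A ^ m₀) = (m₀ : ℝ) ^ 2 * T (W n) A A - (m₀ : ℝ) ^ 3 * a := by
      rw [ht.add, ht.inv, e1, e2]
      ring
    have e4 : T (W n * (A ^ m₀)⁻¹) (W n * (A ^ m₀)⁻¹) (A ^ m₀) =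
        m₀ * T (W n) (W n) A - 2 * ((m₀ : ℝ) ^ 2 * T (W n) A A) + (m₀ : ℝ) ^ 3 * a := by
      rw [ht.add, ht.add2, ht.add2, ht.inv, ht.inv2, ht.inv2, ht.inv, e2, ht.s12 (A ^ m₀) (W n), e1, ht.pow3]
      ring
    have e5 : l (A ^ m₀) = m₀ * l A := hr.l_pow A m₀
    have q1 : 2 * (m₀ : ℝ) * a < T (W n) A A := by
      have : 0 ≤ x n * β := mul_nonneg hx hβ0
      nlinarith
    have q2 : T (A ^ m₀) (A ^ m₀) (A ^ m₀) < T (W n * (A ^ m₀)⁻¹) (A ^ m₀) (A ^ m₀) := by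
      rw [e2, e3]
      have : (m₀ : ℝ) ^ 2 * (2 * m₀ * a) < (m₀ : ℝ) ^ 2 * T (W n) A A := mul_lt_mul_of_pos_left q1 (by positivity)
      nlinarith
    refine ⟨fun E hE => (cv_pos hr hS hE (hamp n)).le, ?_, pos_amp h hr (hamp n) hH hH, pos_amp h hr (hamp n) (hamp n) hH, ?_⟩
    · rw [mul_comm, inv_mul_cancel_right]
    · have h1 := t4 hr hS _ q2
      have h2 : chS T l (A ^ m₀) (W n * (A ^ m₀)⁻¹) =
          m₀ / 2 * (T (W n) (W n) A - 3 * m₀ * T (W n) A A + 2 / m₀ * (7 / 6 * (m₀ : ℝ) ^ 3 * a + m₀ * l A)) := by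
        unfold chS
        rw [e3, e4, e2, e5]
        field_simp
        ring
      rw [h2] at h1
      have h3 : 0 < T (W n) (W n) A - 3 * m₀ * T (W n) A A + 2 / m₀ * (7 / 6 * (m₀ : ℝ) ^ 3 * a + m₀ * l A) := by
        have g1 : 0 ≤ x n * (C * β - 4 * B₁) := mul_nonneg hx (by linarith)
        have g2 : (C - 3 * m₀) * (C * a - 2 * B₀) ≤ (C - 3 * m₀) * T (W n) A A := by
          refine mul_le_mul_of_nonneg_left ?_ (by linarith)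
          have : 0 ≤ x n * β := mul_nonneg hx hβ0
          linarith
        nlinarith
      have h4 : (0 : ℝ) < h0 (ψ (W n * (A ^ m₀)⁻¹)) 1 := lt_of_lt_of_le (by positivity) h1
      exact_mod_cast h4
  exact ⟨K₁, fun n => hK₁ n (Nat.zero_le _)⟩

end Pool.Agent.H61.ZP
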